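import Mathlib

/-!
# σ-stable maps on random locally convex modules: continuity for the two topologies
-/

namespace Pool.Agent.Results.MP_6f9abf_an.SigmaStableContinuity

open MeasureTheory Set Filter
open scoped Topology ENNReal

section defs

variable {Ω : Type*} [MeasurableSpace Ω] {P : Measure Ω}

/-- `L⁰(F, 𝕜)` is a commutative ring (pointwise operations a.e.). -/
noncomputable instance instL0Ring {𝕜 : Type*} [RCLike 𝕜] : CommRing (Ω →ₘ[P] 𝕜) :=
  { (inferInstance : AddCommGroup (Ω →ₘ[P] 𝕜)), (inferInstance : CommMonoid (Ω →ₘ[P] 𝕜)) with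
    left_distrib := fun a b c => by
      apply AEEqFun.ext
      filter_upwards [AEEqFun.coeFn_mul a (b + c), AEEqFun.coeFn_add b c,
        AEEqFun.coeFn_add (a * b) (a * c), AEEqFun.coeFn_mul a b, AEEqFun.coeFn_mul a c]
        with ω h1 h2 h3 h4 h5
      simp only [h1, h2, h3, h4, h5, Pi.mul_apply, Pi.add_apply, mul_add]
    right_distrib := fun a b c => by
      apply AEEqFun.ext
      filter_upwards [AEEqFun.coeFn_mul (a + b) c, AEEqFun.coeFn_add a b,
        AEEqFun.coeFn_add (a * c) (b * c), AEEqFun.coeFn_mul a c, AEEqFun.coeFn_mul b c]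
        with ω h1 h2 h3 h4 h5
      simp only [h1, h2, h3, h4, h5, Pi.mul_apply, Pi.add_apply, add_mul]
    zero_mul := fun a => by
      apply AEEqFun.ext
      filter_upwards [AEEqFun.coeFn_mul 0 a, AEEqFun.coeFn_zero (α := Ω) (β := 𝕜) (μ := P)]
        with ω h1 h2
      simp only [h1, h2, Pi.mul_apply, Pi.zero_apply, zero_mul]
    mul_zero := fun a => by
      apply AEEqFun.ext
      filter_upwards [AEEqFun.coeFn_mul a 0, AEEqFun.coeFn_zero (α := Ω) (β := 𝕜) (μ := P)]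
        with ω h1 h2
      simp only [h1, h2, Pi.mul_apply, Pi.zero_apply, mul_zero] }

/-- The class of the indicator of a measurable set. -/
noncomputable def ind (P : Measure Ω) (𝕜 : Type*) [RCLike 𝕜] (A : Set Ω) (hA : MeasurableSet A) :
    Ω →ₘ[P] 𝕜 :=
  AEEqFun.mk (A.indicator fun _ => (1 : 𝕜)) (aestronglyMeasurable_const.indicator hA)

variable (P) in
/-- `L⁰`-seminorms on an `L⁰(F, 𝕜)`-module. -/
structure L0Seminorm (𝕜 : Type*) [RCLike 𝕜] (E : Type*) [AddCommGroup E]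
    [Module (Ω →ₘ[P] 𝕜) E] where
  /-- the underlying map -/
  toFun : E → (Ω →ₘ[P] ℝ)
  nonneg' : ∀ x, 0 ≤ toFun x
  smul' : ∀ (ξ : Ω →ₘ[P] 𝕜) (x : E),
    toFun (ξ • x) = AEEqFun.comp (fun z : 𝕜 => ‖z‖) continuous_norm ξ * toFun x
  add_le' : ∀ x y, toFun (x + y) ≤ toFun x + toFun y

variable {𝕜 : Type*} [RCLike 𝕜] {E : Type*} [AddCommGroup E] [Module (Ω →ₘ[P] 𝕜) E]

/-- `‖x‖_Q`, the supremum of the seminorms of the finite set `Q` (and `0`). -/
noncomputable def supN (Q : Finset (L0Seminorm P 𝕜 E)) (x : E) : Ω →ₘ[P] ℝ :=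
  Q.fold (· ⊔ ·) 0 (fun p => p.toFun x)

/-- Countable measurable partitions of `Ω`. -/
def IsPart (A : ℕ → Set Ω) : Prop :=
  (∀ n, MeasurableSet (A n)) ∧ Pairwise (Function.onFun Disjoint A) ∧ ⋃ n, A n = univ

variable (P 𝕜) in
/-- `x = ∑ I_{A_n} x_n`. -/
def IsGlue (A : ℕ → Set Ω) (hA : IsPart A) (x : E) (xs : ℕ → E) : Prop :=
  ∀ n, ind P 𝕜 (A n) (hA.1 n) • x = ind P 𝕜 (A n) (hA.1 n) • xs n

variable (P 𝕜 E) in
/-- `E` is σ-stable. -/
def StableModule : Prop :=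
  ∀ (A : ℕ → Set Ω) (hA : IsPart A) (xs : ℕ → E), ∃ x : E, IsGlue P 𝕜 A hA x xs

/-- The family of seminorms is σ-stable: `∑ I_{A_n} ‖·‖_{Q_n}` belongs to it. -/
def StableFamily (Fam : Set (L0Seminorm P 𝕜 E)) : Prop :=
  ∀ (A : ℕ → Set Ω) (hA : IsPart A) (Q : ℕ → Finset (L0Seminorm P 𝕜 E)),
    (∀ n, (Q n : Set (L0Seminorm P 𝕜 E)) ⊆ Fam) →
    ∃ p ∈ Fam, ∀ (x : E) (n : ℕ),
      ind P ℝ (A n) (hA.1 n) * p.toFun x = ind P ℝ (A n) (hA.1 n) * supN (Q n) x

variable (P 𝕜) in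
/-- `G` is σ-stable. -/
def StableSet (G : Set E) : Prop :=
  ∀ (A : ℕ → Set Ω) (hA : IsPart A) (xs : ℕ → E) (x : E), (∀ n, xs n ∈ G) →
    IsGlue P 𝕜 A hA x xs → x ∈ G

variable (P 𝕜) in
/-- `f : G → G` is σ-stable. -/
def StableMap {G : Set E} (f : G → G) : Prop :=
  ∀ (A : ℕ → Set Ω) (hA : IsPart A) (xs : ℕ → G) (x : G),
    IsGlue P 𝕜 A hA (x : E) (fun n => (xs n : E)) →
    IsGlue P 𝕜 A hA (f x : E) (fun n => (f (xs n) : E))

/-- The base of neighbourhoods of `0` of the topology `T_{ε,λ}`. -/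
def baseEL (Fam : Set (L0Seminorm P 𝕜 E)) : Set (Set E) :=
  {U | ∃ (Q : Finset (L0Seminorm P 𝕜 E)) (ε l : ℝ), (Q : Set (L0Seminorm P 𝕜 E)) ⊆ Fam ∧ 0 < ε ∧
    0 < l ∧ l < 1 ∧ U = {x | 1 - l < P.real {ω | supN Q x ω < ε}}}

/-- The base of neighbourhoods of `0` of the topology `T_c`. -/
def baseC (Fam : Set (L0Seminorm P 𝕜 E)) : Set (Set E) :=
  {U | ∃ (Q : Finset (L0Seminorm P 𝕜 E)) (ε : Ω →ₘ[P] ℝ), (Q : Set (L0Seminorm P 𝕜 E)) ⊆ Fam ∧
    (∀ᵐ ω ∂P, 0 < ε ω) ∧ U = {x | ∀ᵐ ω ∂P, supN Q x ω < ε ω}}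

/-- `f : G → G` is continuous for the relative topology of the translation invariant topology
whose neighbourhoods of `0` have the base `𝓑`. -/
def ContFor {E : Type*} [AddCommGroup E] (𝓑 : Set (Set E)) {G : Set E} (f : G → G) : Prop :=
  ∀ x₀ : G, ∀ U ∈ 𝓑, ∃ V ∈ 𝓑, ∀ x : G, (x : E) - x₀ ∈ V → (f x : E) - f x₀ ∈ U

end defs

section proof

variable {Ω : Type*} [MeasurableSpace Ω] {P : Measure Ω}
variable {𝕜 : Type*} [RCLike 𝕜] {E : Type*} [AddCommGroup E] [Module (Ω →ₘ[P] 𝕜) E]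

theorem ind_ae (𝕜 : Type*) [RCLike 𝕜] (A : Set Ω) (hA : MeasurableSet A) :
    ∀ᵐ ω ∂P, ind P 𝕜 A hA ω = A.indicator (fun _ => (1 : 𝕜)) ω :=
  AEEqFun.coeFn_mk _ _

theorem ind_mul_eq {A : Set Ω} (hA : MeasurableSet A) {f g : Ω →ₘ[P] ℝ}
    (h : ind P ℝ A hA * f = ind P ℝ A hA * g) : ∀ᵐ ω ∂P, ω ∈ A → f ω = g ω := by
  have h1 := AEEqFun.coeFn_mul (ind P ℝ A hA) f
  have h2 := AEEqFun.coeFn_mul (ind P ℝ A hA) g
  filter_upwards [h1, h2, ind_ae ℝ A hA] with ω e1 e2 e3 hω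
  rw [h] at e1
  rw [e1] at e2
  simp only [Pi.mul_apply, e3, indicator_of_mem hω, one_mul] at e2
  exact e2

/-- Seminorms are local. -/
theorem seminorm_local (p : L0Seminorm P 𝕜 E) {A : Set Ω} (hA : MeasurableSet A) {x y : E}
    (h : ind P 𝕜 A hA • x = ind P 𝕜 A hA • y) : ∀ᵐ ω ∂P, ω ∈ A → p.toFun x ω = p.toFun y ω := by
  have h1 := p.smul' (ind P 𝕜 A hA) x
  have h2 := p.smul' (ind P 𝕜 A hA) y
  rw [h, h2] at h1
  set a := AEEqFun.comp (fun z : 𝕜 => ‖z‖) continuous_norm (ind P 𝕜 A hA) with ha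
  have e1 := AEEqFun.coeFn_mul a (p.toFun x)
  have e2 := AEEqFun.coeFn_mul a (p.toFun y)
  have e3 : ∀ᵐ ω ∂P, a ω = ‖ind P 𝕜 A hA ω‖ := AEEqFun.coeFn_comp _ _ _
  filter_upwards [e1, e2, e3, ind_ae 𝕜 A hA] with ω g1 g2 g3 g4 hω
  rw [← h1, g2] at g1
  simp only [Pi.mul_apply, g3, g4, indicator_of_mem hω, norm_one, one_mul] at g1
  exact g1.symm

theorem supN_insert [DecidableEq (L0Seminorm P 𝕜 E)] (p : L0Seminorm P 𝕜 E)
    {Q : Finset (L0Seminorm P 𝕜 E)} (hp : p ∉ Q) (x : E) :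
    supN (insert p Q) x = p.toFun x ⊔ supN Q x := by
  unfold supN
  rw [Finset.fold_insert hp]

theorem supN_local (Q : Finset (L0Seminorm P 𝕜 E)) {A : Set Ω} (hA : MeasurableSet A) {x y : E}
    (h : ind P 𝕜 A hA • x = ind P 𝕜 A hA • y) : ∀ᵐ ω ∂P, ω ∈ A → supN Q x ω = supN Q y ω := by
  classical
  induction Q using Finset.induction_on with
  | empty => exact Eventually.of_forall fun ω _ => rfl
  | insert p Q hp ih =>
    rw [supN_insert p hp, supN_insert p hp]
    filter_upwards [ih, seminorm_local p hA h, AEEqFun.coeFn_sup (p.toFun x) (supN Q x),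
      AEEqFun.coeFn_sup (p.toFun y) (supN Q y)] with ω h1 h2 h3 h4 hω
    rw [h3, h4, h1 hω, h2 hω]

theorem seminorm_zero (p : L0Seminorm P 𝕜 E) : p.toFun 0 = 0 := by
  have h := p.smul' 0 0
  rw [zero_smul] at h
  rw [h]
  have : AEEqFun.comp (fun z : 𝕜 => ‖z‖) continuous_norm (0 : Ω →ₘ[P] 𝕜) = 0 := by
    apply AEEqFun.ext
    filter_upwards [AEEqFun.coeFn_comp (fun z : 𝕜 => ‖z‖) continuous_norm (0 : Ω →ₘ[P] 𝕜),
      AEEqFun.coeFn_zero (α := Ω) (β := 𝕜) (μ := P), AEEqFun.coeFn_zero (α := Ω) (β := ℝ) (μ := P)]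
      with ω h1 h2 h3
    simp [h1, h2, h3]
  rw [this, zero_mul]

theorem supN_zero (Q : Finset (L0Seminorm P 𝕜 E)) : supN Q (0 : E) = 0 := by
  classical
  induction Q using Finset.induction_on with
  | empty => rfl
  | insert p Q hp ih => rw [supN_insert p hp, ih, seminorm_zero, sup_idem]

theorem supN_zero_ae (Q : Finset (L0Seminorm P 𝕜 E)) : ∀ᵐ ω ∂P, supN Q (0 : E) ω = 0 := by
  rw [supN_zero]
  exact AEEqFun.coeFn_zero

theorem supN_singleton (p : L0Seminorm P 𝕜 E) (x : E) : supN {p} x = p.toFun x := by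
  unfold supN
  rw [Finset.fold_singleton]
  exact sup_eq_left.mpr (p.nonneg' x)

/-! #### Partitions -/

/-- Two sets. -/
def two (A : Set Ω) : ℕ → Set Ω := fun n => if n = 0 then A else if n = 1 then Aᶜ else ∅

theorem two_part {A : Set Ω} (hA : MeasurableSet A) : IsPart (two A) := by
  refine ⟨fun n => ?_, fun i j hij => ?_, ?_⟩
  · unfold two
    split_ifs
    · exact hA
    · exact hA.compl
    · exact MeasurableSet.empty
  · unfold Function.onFun two
    by_cases hi0 : i = 0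
    · by_cases hj1 : j = 1
      · subst hi0; subst hj1
        simpa using disjoint_compl_right
      · have hj0 : j ≠ 0 := fun h => hij (by rw [hi0, h])
        simp [hj0, hj1]
    · by_cases hi1 : i = 1
      · by_cases hj0 : j = 0
        · subst hi1; subst hj0
          simpa using disjoint_compl_left
        · have hj1 : j ≠ 1 := fun h => hij (by rw [hi1, h])
          simp [hj0, hj1]
      · simp [hi0, hi1]
  · apply eq_univ_of_forall
    intro ω
    by_cases h : ω ∈ A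
    · exact mem_iUnion.mpr ⟨0, by simpa [two] using h⟩
    · exact mem_iUnion.mpr ⟨1, by simpa [two] using h⟩

/-- Disjointed partition with the complement of the union in front. -/
def dis (B : ℕ → Set Ω) : ℕ → Set Ω
  | 0 => (⋃ n, B n)ᶜ
  | n + 1 => disjointed B n

omit [MeasurableSpace Ω] in
theorem dis_subset (B : ℕ → Set Ω) (n : ℕ) : dis B (n + 1) ⊆ B n := disjointed_subset B n

theorem dis_part {B : ℕ → Set Ω} (hB : ∀ n, MeasurableSet (B n)) : IsPart (dis B) := by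
  have hu : ∀ n, disjointed B n ⊆ ⋃ n, B n := fun n =>
    (disjointed_subset B n).trans (subset_iUnion B n)
  refine ⟨fun n => ?_, fun i j hij => ?_, ?_⟩
  · cases n with
    | zero => exact (MeasurableSet.iUnion hB).compl
    | succ n => exact MeasurableSet.disjointed hB n
  · unfold Function.onFun
    cases i with
    | zero =>
      cases j with
      | zero => exact absurd rfl hij
      | succ j => exact (disjoint_compl_left (a := ⋃ n, B n)).mono_right (hu j)
    | succ i =>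
      cases j with
      | zero => exact (disjoint_compl_right (a := ⋃ n, B n)).mono_left (hu i)
      | succ j => exact disjoint_disjointed B (fun h => hij (by rw [h]))
  · apply eq_univ_of_forall
    intro ω
    by_cases h : ω ∈ ⋃ n, B n
    · rw [← iUnion_disjointed] at h
      obtain ⟨n, hn⟩ := mem_iUnion.mp h
      exact mem_iUnion.mpr ⟨n + 1, hn⟩
    · exact mem_iUnion.mpr ⟨0, h⟩

theorem sub_glue {A : Set Ω} (hA : MeasurableSet A) {x y : E} (z : E)
    (h : ind P 𝕜 A hA • x = ind P 𝕜 A hA • y) :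
    ind P 𝕜 A hA • (x - z) = ind P 𝕜 A hA • (y - z) := by
  rw [smul_sub, smul_sub, h]

section main

variable {G : Set E} {f : G → G}

/-- The bad event. -/
def bad (Q₀ : Finset (L0Seminorm P 𝕜 E)) (ε : Ω →ₘ[P] ℝ) (f : G → G) (x₀ x : G) : Set Ω :=
  {ω | ε ω ≤ supN Q₀ ((f x : E) - f x₀) ω}

/-- Near `x₀`. -/
def Near (Q : Finset (L0Seminorm P 𝕜 E)) (δ : Ω → ℝ) (x₀ x : G) : Prop :=
  ∀ᵐ ω ∂P, supN Q ((x : E) - x₀) ω < δ ω

theorem bad_meas (Q₀ : Finset (L0Seminorm P 𝕜 E)) (ε : Ω →ₘ[P] ℝ) (x₀ x : G) :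
    MeasurableSet (bad Q₀ ε f x₀ x) :=
  measurableSet_le (AEEqFun.measurable _) (AEEqFun.measurable _)

theorem glue_exists (hE : StableModule P 𝕜 E) (hG : StableSet P 𝕜 G) (hf : StableMap P 𝕜 f)
    {A : ℕ → Set Ω} (hA : IsPart A) (xs : ℕ → G) : ∃ x : G,
      IsGlue P 𝕜 A hA (x : E) (fun n => (xs n : E)) ∧
      IsGlue P 𝕜 A hA (f x : E) (fun n => (f (xs n) : E)) := by
  obtain ⟨x, hx⟩ := hE A hA (fun n => (xs n : E))
  have hxG : x ∈ G := hG A hA _ x (fun n => (xs n).2) hx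
  exact ⟨⟨x, hxG⟩, hx, hf A hA xs ⟨x, hxG⟩ hx⟩

/-- Pointwise consequences of gluing. -/
theorem glue_ae {A : ℕ → Set Ω} (hA : IsPart A) (Q : Finset (L0Seminorm P 𝕜 E)) {x : E}
    {xs : ℕ → E} (h : IsGlue P 𝕜 A hA x xs) (z : E) :
    ∀ᵐ ω ∂P, ∀ n, ω ∈ A n → supN Q (x - z) ω = supN Q (xs n - z) ω := by
  rw [ae_all_iff]
  intro n
  exact supN_local Q (hA.1 n) (sub_glue (hA.1 n) z (h n))

theorem near_glue {A : ℕ → Set Ω} (hA : IsPart A) (Q : Finset (L0Seminorm P 𝕜 E)) {δ : Ω → ℝ}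
    {x x₀ : G} {xs : ℕ → G} (h : IsGlue P 𝕜 A hA (x : E) (fun n => (xs n : E)))
    (hxs : ∀ n, Near Q δ x₀ (xs n)) : Near Q δ x₀ x := by
  have h1 := glue_ae hA Q h (x₀ : E)
  have h2 : ∀ᵐ ω ∂P, ∀ n, supN Q ((xs n : E) - x₀) ω < δ ω := ae_all_iff.mpr hxs
  unfold Near
  filter_upwards [h1, h2] with ω g1 g2
  have hω : ω ∈ ⋃ n, A n := by rw [hA.2.2]; exact mem_univ _
  obtain ⟨n, hn⟩ := mem_iUnion.mp hω
  rw [g1 n hn]
  exact g2 n

theorem near_self (Q : Finset (L0Seminorm P 𝕜 E)) {δ : Ω → ℝ} (hδ : ∀ᵐ ω ∂P, 0 < δ ω) (x₀ : G) :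
    Near Q δ x₀ x₀ := by
  unfold Near
  rw [sub_self]
  filter_upwards [supN_zero_ae Q, hδ] with ω h1 h2
  rw [h1]; exact h2

/-- There is a maximal bad event. -/
theorem exists_max [IsProbabilityMeasure P] (hE : StableModule P 𝕜 E) (hG : StableSet P 𝕜 G)
    (hf : StableMap P 𝕜 f) (Q₀ : Finset (L0Seminorm P 𝕜 E)) (ε : Ω →ₘ[P] ℝ) (x₀ : G)
    (Q : Finset (L0Seminorm P 𝕜 E)) {δ : Ω → ℝ} (hδ : ∀ᵐ ω ∂P, 0 < δ ω) :
    ∃ z : G, Near Q δ x₀ z ∧ ∀ x : G, Near Q δ x₀ x →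
      P (bad Q₀ ε f x₀ x \ bad Q₀ ε f x₀ z) = 0 := by
  set B : G → Set Ω := fun x => bad Q₀ ε f x₀ x with hB
  set S : Set ℝ≥0∞ := (fun x => P (B x)) '' {x : G | Near Q δ x₀ x} with hS
  have hne : S.Nonempty := ⟨_, x₀, near_self Q hδ x₀, rfl⟩
  obtain ⟨u, _, hu2, hu3⟩ := exists_seq_tendsto_sSup hne (OrderTop.bddAbove S)
  choose xs hxs1 hxs2 using hu3
  have hBm : ∀ x, MeasurableSet (B x) := fun x => bad_meas Q₀ ε x₀ x
  set D := dis (fun n => B (xs n)) with hD
  have hDp : IsPart D := dis_part fun n => hBm _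
  set ys : ℕ → G := fun n => Nat.casesOn n x₀ xs with hys
  obtain ⟨z, hz1, hz2⟩ := glue_exists hE hG hf hDp ys
  have hzN : Near Q δ x₀ z := by
    apply near_glue hDp Q hz1
    intro n
    cases n with
    | zero => exact near_self Q hδ x₀
    | succ n => exact hxs1 n
  have hzB : ∀ n, P (B (xs n)) ≤ P (B z) := by
    intro n
    apply measure_mono_ae
    have h1 := glue_ae hDp Q₀ hz2 (f x₀ : E)
    filter_upwards [h1] with ω g1 hω
    have hω' : ω ∈ B (xs n) := hω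
    have hu : ω ∈ ⋃ n, B (xs n) := mem_iUnion.mpr ⟨n, hω'⟩
    rw [← iUnion_disjointed] at hu
    obtain ⟨m, hm⟩ := mem_iUnion.mp hu
    have hmD : ω ∈ D (m + 1) := hm
    have hmB : ω ∈ B (xs m) := dis_subset _ m hmD
    have e := g1 (m + 1) hmD
    show ε ω ≤ supN Q₀ ((f z : E) - f x₀) ω
    rw [e]
    exact hmB
  have hzS : sSup S ≤ P (B z) := by
    refine le_of_tendsto' hu2 fun n => ?_
    rw [← hxs2 n]
    exact hzB n
  refine ⟨z, hzN, fun x hx => ?_⟩
  set A := B x \ B z with hA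
  have hAm : MeasurableSet A := (hBm x).diff (hBm z)
  obtain ⟨y, hy1, hy2⟩ := glue_exists hE hG hf (two_part hAm) (fun n => if n = 0 then x else z)
  have hyN : Near Q δ x₀ y := by
    apply near_glue (two_part hAm) Q hy1
    intro n
    by_cases h : n = 0
    · simpa [h] using hx
    · simpa [h] using hzN
  have hyS : P (B y) ≤ sSup S := le_sSup ⟨y, hyN, rfl⟩
  have hyB : P (B z ∪ A) ≤ P (B y) := by
    apply measure_mono_ae
    have h1 := glue_ae (two_part hAm) Q₀ hy2 (f x₀ : E)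
    filter_upwards [h1] with ω g1 hω
    show ε ω ≤ supN Q₀ ((f y : E) - f x₀) ω
    by_cases hωA : ω ∈ A
    · have e := g1 0 (by simpa [two] using hωA)
      rw [e]
      exact hωA.1
    · have e := g1 1 (by simpa [two] using hωA)
      rw [e]
      rcases hω with h | h
      · exact h
      · exact absurd h hωA
  have hdisj : Disjoint (B z) A := disjoint_sdiff_right
  rw [measure_union hdisj hAm] at hyB
  have h5 : P (B z) + P A ≤ P (B z) + 0 := by
    rw [add_zero]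
    exact hyB.trans (hyS.trans hzS)
  have h6 : P A ≤ 0 := (ENNReal.add_le_add_iff_left (measure_ne_top P _)).mp h5
  exact le_antisymm h6 bot_le

/-- Small maximal bad events can be glued away. -/
theorem of_small [IsProbabilityMeasure P] (hE : StableModule P 𝕜 E) (hG : StableSet P 𝕜 G)
    (hf : StableMap P 𝕜 f) {Fam : Set (L0Seminorm P 𝕜 E)} (hFam : StableFamily Fam)
    (Q₀ : Finset (L0Seminorm P 𝕜 E)) (ε : Ω →ₘ[P] ℝ) (x₀ : G)
    (h : ∀ c : ℝ, 0 < c → ∃ (Q : Finset (L0Seminorm P 𝕜 E)) (δ : Ω → ℝ),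
      (Q : Set (L0Seminorm P 𝕜 E)) ⊆ Fam ∧ Measurable δ ∧ (∀ᵐ ω ∂P, 0 < δ ω) ∧
      ∀ x : G, Near Q δ x₀ x → P.real (bad Q₀ ε f x₀ x) < c) :
    ∃ (p : L0Seminorm P 𝕜 E) (δ : Ω → ℝ), p ∈ Fam ∧ Measurable δ ∧ (∀ᵐ ω ∂P, 0 < δ ω) ∧
      ∀ x : G, Near {p} δ x₀ x → P (bad Q₀ ε f x₀ x) = 0 := by
  classical
  have hc : ∀ n : ℕ, (0 : ℝ) < 1 / (n + 1) := fun n => Nat.one_div_pos_of_nat
  choose Q δ hQ hδm hδ hsmall using fun n : ℕ => h (1 / (n + 1)) (hc n)
  choose z hzN hzmax using fun n : ℕ => exists_max hE hG hf Q₀ ε x₀ (Q n) (hδ n)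
  set β : ℕ → Set Ω := fun n => bad Q₀ ε f x₀ (z n) with hβ
  have hβm : ∀ n, MeasurableSet (β n) := fun n => bad_meas Q₀ ε x₀ (z n)
  have hβs : ∀ n, P.real (β n) < 1 / (n + 1) := fun n => hsmall n (z n) (hzN n)
  have hnull : P (⋂ n, β n) = 0 := by
    have h1 : P.real (⋂ n, β n) ≤ 0 := by
      refine ge_of_tendsto' tendsto_one_div_add_atTop_nhds_zero_nat fun n => ?_
      exact (measureReal_mono (iInter_subset β n)).trans (hβs n).le
    have h2 : P.real (⋂ n, β n) = 0 := le_antisymm h1 measureReal_nonneg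
    rwa [measureReal_eq_zero_iff] at h2
  set D := dis (fun n => (β n)ᶜ) with hD
  have hDp : IsPart D := dis_part fun n => (hβm n).compl
  set Q' : ℕ → Finset (L0Seminorm P 𝕜 E) := fun n => Nat.casesOn n (Q 0) Q with hQ'
  set δ' : ℕ → Ω → ℝ := fun n => Nat.casesOn n (δ 0) δ with hδ'
  have hQ'F : ∀ n, (Q' n : Set (L0Seminorm P 𝕜 E)) ⊆ Fam := by
    intro n
    cases n with
    | zero => exact hQ 0
    | succ n => exact hQ n
  have hδ'm : ∀ n, Measurable (δ' n) := by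
    intro n
    cases n with
    | zero => exact hδm 0
    | succ n => exact hδm n
  have hδ'p : ∀ n, ∀ᵐ ω ∂P, 0 < δ' n ω := by
    intro n
    cases n with
    | zero => exact hδ 0
    | succ n => exact hδ n
  obtain ⟨p, hpF, hp⟩ := hFam D hDp Q' hQ'F
  have hex : ∀ ω, ∃ n, ω ∈ D n := by
    intro ω
    have : ω ∈ ⋃ n, D n := by rw [hDp.2.2]; exact mem_univ _
    exact mem_iUnion.mp this
  set idx : Ω → ℕ := fun ω => Nat.find (hex ω) with hidx
  have hidxm : Measurable idx := measurable_find hex fun n => hDp.1 n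
  have hidxD : ∀ ω, ω ∈ D (idx ω) := fun ω => Nat.find_spec (hex ω)
  have hidxu : ∀ ω n, ω ∈ D n → idx ω = n := by
    intro ω n hn
    by_contra hne
    exact Set.disjoint_left.mp (hDp.2.1 hne) (hidxD ω) hn
  set d : Ω → ℝ := fun ω => δ' (idx ω) ω with hd
  have hdm : Measurable d := by
    have h1 : Measurable fun q : ℕ × Ω => δ' q.1 q.2 :=
      measurable_from_prod_countable_right fun n => hδ'm n
    exact h1.comp (hidxm.prodMk measurable_id)
  have hdp : ∀ᵐ ω ∂P, 0 < d ω := by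
    filter_upwards [ae_all_iff.mpr hδ'p] with ω g
    exact g _
  refine ⟨p, d, hpF, hdm, hdp, fun x hx => ?_⟩
  -- the bad event of `x` is null on each piece
  have hpiece : ∀ n, P (bad Q₀ ε f x₀ x ∩ D n) = 0 := by
    intro n
    cases n with
    | zero =>
      refine measure_mono_null ?_ hnull
      intro ω hω
      have h0 : ω ∈ (⋃ n, (β n)ᶜ)ᶜ := hω.2
      rw [compl_iUnion] at h0
      simpa using h0
    | succ n =>
      have hAm : MeasurableSet (D (n + 1)) := hDp.1 (n + 1)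
      obtain ⟨y, hy1, hy2⟩ := glue_exists hE hG hf (two_part hAm)
        (fun n => if n = 0 then x else x₀)
      have hyN : Near (Q n) (δ n) x₀ y := by
        have h1 := glue_ae (two_part hAm) (Q n) hy1 (x₀ : E)
        have h2 : ∀ᵐ ω ∂P, ω ∈ D (n + 1) →
            p.toFun ((x : E) - x₀) ω = supN (Q n) ((x : E) - x₀) ω :=
          ind_mul_eq hAm (hp ((x : E) - x₀) (n + 1))
        unfold Near at hx ⊢
        rw [supN_singleton] at hx
        filter_upwards [h1, h2, hx, supN_zero_ae (E := E) (Q n), hδ n] with ω g1 g2 g3 g4 g5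
        by_cases hω : ω ∈ D (n + 1)
        · have e := g1 0 (by simpa [two] using hω)
          rw [e]
          have e2 := g2 hω
          have e3 : d ω = δ n ω := by
            rw [hd]
            simp only [hidxu ω (n + 1) hω]
            rfl
          simp only [if_true]
          rw [← e2, ← e3]
          exact g3
        · have e := g1 1 (by simpa [two] using hω)
          rw [e]
          simp only [one_ne_zero, if_false, sub_self]
          rw [g4]
          exact g5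
      have h3 := hzmax n y hyN
      refine measure_mono_null_ae ?_ h3
      have h1 := glue_ae (two_part hAm) Q₀ hy2 (f x₀ : E)
      filter_upwards [h1] with ω g1 hω
      obtain ⟨hω1, hω2⟩ := hω
      have e := g1 0 (by simpa [two] using hω2)
      simp only [if_true] at e
      refine ⟨?_, ?_⟩
      · show ε ω ≤ supN Q₀ ((f y : E) - f x₀) ω
        rw [e]
        exact hω1
      · exact dis_subset (fun n => (β n)ᶜ) n hω2
  have hunion : bad Q₀ ε f x₀ x = ⋃ n, bad Q₀ ε f x₀ x ∩ D n := by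
    rw [← inter_iUnion, hDp.2.2, inter_univ]
  rw [hunion]
  exact measure_iUnion_null hpiece

/-- **Q1, positive answer.**  Let `(E, Fam)` be a random locally convex module over `L⁰(F, 𝕜)` with
`E` and the family of seminorms σ-stable, `G ⊆ E` σ-stable and `f : G → G` a σ-stable map which is
continuous for `T_{ε,λ}`.  Then `f` is continuous for `T_c`. -/
theorem result {Ω : Type*} [MeasurableSpace Ω] {P : Measure Ω} [IsProbabilityMeasure P]
    {𝕜 : Type*} [RCLike 𝕜] {E : Type*} [AddCommGroup E] [Module (Ω →ₘ[P] 𝕜) E]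
    (Fam : Set (L0Seminorm P 𝕜 E)) (_hsep : ∀ x : E, (∀ p ∈ Fam, p.toFun x = 0) → x = 0)
    (hE : StableModule P 𝕜 E) (hFam : StableFamily Fam)
    (G : Set E) (hG : StableSet P 𝕜 G) (f : G → G) (hf : StableMap P 𝕜 f)
    (hcont : ContFor (baseEL Fam) f) : ContFor (baseC Fam) f := by
  classical
  intro x₀ U hU
  obtain ⟨Q₀, ε, hQ₀, hε, rfl⟩ := hU
  by_cases H : ∀ c : ℝ, 0 < c → ∃ (Q : Finset (L0Seminorm P 𝕜 E)) (δ : Ω → ℝ),
      (Q : Set (L0Seminorm P 𝕜 E)) ⊆ Fam ∧ Measurable δ ∧ (∀ᵐ ω ∂P, 0 < δ ω) ∧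
      ∀ x : G, Near Q δ x₀ x → P.real (bad Q₀ ε f x₀ x) < c
  · obtain ⟨p, δ, hpF, hδm, hδp, hgood⟩ := of_small hE hG hf hFam Q₀ ε x₀ H
    refine ⟨_, ⟨{p}, AEEqFun.mk δ hδm.aestronglyMeasurable, by simpa using hpF, ?_, rfl⟩, ?_⟩
    · filter_upwards [AEEqFun.coeFn_mk δ hδm.aestronglyMeasurable, hδp] with ω h1 h2
      rw [h1]; exact h2
    · intro x hx
      have hN : Near {p} δ x₀ x := by
        unfold Near
        have hx' : ∀ᵐ ω ∂P, supN {p} ((x : E) - x₀) ω <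
          AEEqFun.mk δ hδm.aestronglyMeasurable ω := hx
        filter_upwards [hx', AEEqFun.coeFn_mk δ hδm.aestronglyMeasurable] with ω h1 h2
        rw [← h2]; exact h1
      have h0 := hgood x hN
      show ∀ᵐ ω ∂P, supN Q₀ ((f x : E) - f x₀) ω < ε ω
      rw [ae_iff]
      refine measure_mono_null ?_ h0
      intro ω hω
      exact not_lt.mp hω
  · exfalso
    push Not at H
    obtain ⟨c, hc, H⟩ := H
    have hc1 : c ≤ 1 := by
      obtain ⟨x, _, hx⟩ := H ∅ (fun _ => 1) (by simp) measurable_const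
        (Eventually.of_forall fun _ => one_pos)
      exact hx.trans measureReal_le_one
    -- a constant lower bound for `ε`
    obtain ⟨ε₁, hε₁, hε₁P⟩ : ∃ ε₁ : ℝ, 0 < ε₁ ∧ P.real {ω | ε ω ≤ ε₁} < c / 2 := by
      set T : ℕ → Set Ω := fun n => {ω | ε ω ≤ 1 / ((n : ℝ) + 1)} with hT
      have hTm : ∀ n, MeasurableSet (T n) := fun n =>
        measurableSet_le (AEEqFun.measurable _) measurable_const
      have hanti : Antitone T := by
        intro m n hmn ω hω
        have : (1 : ℝ) / ((n : ℝ) + 1) ≤ 1 / ((m : ℝ) + 1) := by gcongr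
        exact le_trans hω this
      have hlim := tendsto_measure_iInter_atTop (μ := P) (fun n => (hTm n).nullMeasurableSet) hanti
        ⟨0, measure_ne_top P _⟩
      have hzero : P (⋂ n, T n) = 0 := by
        refine measure_mono_null ?_ (ae_iff.mp hε)
        intro ω hω hpos
        rw [mem_iInter] at hω
        have h1 : ε ω ≤ 0 := ge_of_tendsto' tendsto_one_div_add_atTop_nhds_zero_nat fun n => hω n
        exact absurd hpos (not_lt.mpr h1)
      rw [hzero] at hlim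
      have hlim2 : Tendsto (fun n => P.real (T n)) atTop (𝓝 0) := by
        have h := (ENNReal.tendsto_toReal ENNReal.zero_ne_top).comp hlim
        rw [ENNReal.toReal_zero] at h
        exact h
      obtain ⟨n, hn⟩ := ((tendsto_order.1 hlim2).2 (c / 2) (by linarith)).exists
      exact ⟨1 / ((n : ℝ) + 1), Nat.one_div_pos_of_nat, hn⟩
    obtain ⟨V, hV, hVx⟩ := hcont x₀ {x | 1 - c / 2 < P.real {ω | supN Q₀ x ω < ε₁}}
      ⟨Q₀, ε₁, c / 2, hQ₀, hε₁, by linarith, by linarith, rfl⟩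
    obtain ⟨Q, ε', l, hQ, hε', hl, _, rfl⟩ := hV
    obtain ⟨x, hx, hxc⟩ := H Q (fun _ => ε') hQ measurable_const (Eventually.of_forall fun _ => hε')
    have hxV : (x : E) - x₀ ∈ {x | 1 - l < P.real {ω | supN Q x ω < ε'}} := by
      have h1 : P.real {ω | supN Q ((x : E) - x₀) ω < ε'} = 1 := by
        have h2 : P {ω | supN Q ((x : E) - x₀) ω < ε'} = 1 := by
          exact (mem_ae_iff_prob_eq_one
            (measurableSet_lt (AEEqFun.measurable _) measurable_const)).mp hx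
        rw [Measure.real, h2, ENNReal.toReal_one]
      show 1 - l < P.real {ω | supN Q ((x : E) - x₀) ω < ε'}
      rw [h1]; linarith
    have hfx : 1 - c / 2 < P.real {ω | supN Q₀ ((f x : E) - f x₀) ω < ε₁} := hVx x hxV
    have hm : MeasurableSet {ω | supN Q₀ ((f x : E) - f x₀) ω < ε₁} :=
      measurableSet_lt (AEEqFun.measurable _) measurable_const
    have hcompl : P.real {ω | supN Q₀ ((f x : E) - f x₀) ω < ε₁}ᶜ < c / 2 := by
      rw [probReal_compl_eq_one_sub hm]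
      linarith
    have hsub : bad Q₀ ε f x₀ x ⊆ {ω | ε ω ≤ ε₁} ∪ {ω | supN Q₀ ((f x : E) - f x₀) ω < ε₁}ᶜ := by
      intro ω hω
      by_cases h : ε ω ≤ ε₁
      · exact Or.inl h
      · refine Or.inr ?_
        intro h2
        have h3 : ε ω ≤ supN Q₀ ((f x : E) - f x₀) ω := hω
        have h4 : supN Q₀ ((f x : E) - f x₀) ω < ε₁ := h2
        exact h (h3.trans h4.le)
    have h7 := (measureReal_mono (μ := P) hsub).trans (measureReal_union_le _ _)
    linarith

end main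

end proof

end Pool.Agent.Results.MP_6f9abf_an.SigmaStableContinuity
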